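import Pool.Agent.Helper26.TR.Iface

set_option autoImplicit false

/-!
MP_120218_co, project TR: the count.  The class of `b` under `Close` has at most
`2 * prod (2 U_q)` elements, and this is at most `N ^ ζ` if the weight is small.
-/

open Finset

namespace Pool.Agent.Helper66.TR

open Pool.Agent.Helper26.TR

/-- the primes with a positive level -/
def act (n : ℕ) (lam : ℕ → ℕ) : Finset ℕ :=
  (range n).filter (fun q => q.Prime ∧ lam q ≠ 0)

theorem inj_aux {a b : ℤ} (ha : a ≠ 0) (hb : b ≠ 0) (hs : decide (a < 0) = decide (b < 0))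
    (h : ∀ q : ℕ, q.Prime → padicValInt q a = padicValInt q b) : a = b := by
  have h1 : a.natAbs = b.natAbs := by
    rw [Nat.eq_iff_prime_padicValNat_eq _ _ (Int.natAbs_ne_zero.mpr ha)
      (Int.natAbs_ne_zero.mpr hb)]
    intro p hp
    exact h p hp
  have h2 : (a < 0) ↔ (b < 0) := decide_eq_decide.mp hs
  rcases Int.natAbs_eq_natAbs_iff.mp h1 with h3 | h3
  · exact h3
  · omega

open Classical in
theorem card_close_le (U : ℕ → ℕ) (n : ℕ) (lam : ℕ → ℕ) (hn : ∀ q, n ≤ q → lam q = 0)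
    (hU : ∀ q, lam q = 0 → U q = 1) (Y : Finset ℤ) (b : ℤ) (h0 : (0 : ℤ) ∉ Y) :
    (Y.filter (fun b' => Close U b b')).card ≤ 2 * ∏ q ∈ act n lam, (2 * U q) := by
  classical
  set P := act n lam with hP
  set t : ℕ → Finset ℤ := fun q =>
    Ioo ((padicValInt q b : ℤ) - U q) ((padicValInt q b : ℤ) + U q) with ht
  set T : Finset (Bool × ((q : ℕ) → q ∈ P → ℤ)) := (univ : Finset Bool) ×ˢ (P.pi t) with hT
  have hcard : T.card ≤ 2 * ∏ q ∈ P, (2 * U q) := by
    rw [hT, card_product, card_pi]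
    have : (univ : Finset Bool).card = 2 := rfl
    rw [this]
    refine Nat.mul_le_mul le_rfl (prod_le_prod' fun q _ => ?_)
    rw [ht]
    simp only [Int.card_Ioo]
    omega
  refine le_trans ?_ hcard
  refine card_le_card_of_injOn
    (fun b' => (decide (b' < 0), fun q _ => (padicValInt q b' : ℤ))) ?_ ?_
  · intro b' hb'
    have hb'' : b' ∈ Y.filter (fun b' => Close U b b') := hb'
    rw [mem_filter] at hb''
    refine mem_coe.mpr ?_
    rw [hT, mem_product]
    refine ⟨mem_univ _, ?_⟩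
    rw [mem_pi]
    intro q hq
    have hq' : q ∈ (range n).filter (fun q => q.Prime ∧ lam q ≠ 0) := hq
    rw [mem_filter] at hq'
    have h1 := hb''.2 q hq'.2.1
    rw [abs_lt] at h1
    rw [ht]
    simp only [mem_Ioo]
    constructor <;> linarith [h1.1, h1.2]
  · intro a ha a' ha' hEq
    have ha1 : a ∈ Y.filter (fun b' => Close U b b') := ha
    have ha1' : a' ∈ Y.filter (fun b' => Close U b b') := ha'
    rw [mem_filter] at ha1 ha1'
    have hEq' := Prod.mk.inj hEq
    have hane : a ≠ 0 := fun h => h0 (h ▸ ha1.1)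
    have hane' : a' ≠ 0 := fun h => h0 (h ▸ ha1'.1)
    refine inj_aux hane hane' hEq'.1 ?_
    intro q hq
    by_cases hl : lam q = 0
    · have h1 := ha1.2 q hq
      have h2 := ha1'.2 q hq
      rw [hU q hl] at h1 h2
      rw [abs_lt] at h1 h2
      push_cast at h1 h2
      omega
    · have hqn : q < n := by
        by_contra hh
        exact hl (hn q (not_lt.mp hh))
      have hqP : q ∈ P := by
        rw [hP]
        unfold act
        rw [mem_filter]
        exact ⟨mem_range.mpr hqn, hq, hl⟩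
      have h1 := congrFun (congrFun hEq'.2 q) hqP
      simpa using h1

theorem eventually_params (ζ D : ℝ) (hζ : 0 < ζ) : ∃ L₀ : ℝ, ∀ L : ℝ, L₀ ≤ L →
    1 ≤ L ∧ 1 ≤ Real.log L ∧ Real.log 2 ≤ ζ / 4 * L ∧
      L ^ (1 / 4 : ℝ) * (D + 2 * Real.log L) ≤ ζ / 4 * L := by
  have h1 : ∀ᶠ L : ℝ in Filter.atTop, 1 ≤ L := Filter.eventually_ge_atTop 1
  have h2 : ∀ᶠ L : ℝ in Filter.atTop, 1 ≤ Real.log L :=
    Real.tendsto_log_atTop.eventually_ge_atTop 1
  have h3 : ∀ᶠ L : ℝ in Filter.atTop, Real.log 2 / (ζ / 4) ≤ L := Filter.eventually_ge_atTop _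
  have h4 : ∀ᶠ L : ℝ in Filter.atTop, Real.log L ≤ L ^ (1 / 4 : ℝ) := by
    have h := (isLittleO_log_rpow_atTop (show (0 : ℝ) < 1 / 4 by norm_num)).bound
      (show (0 : ℝ) < 1 by norm_num)
    filter_upwards [h, h1, h2] with L hL hL1 hL2
    rw [one_mul] at hL
    rw [Real.norm_of_nonneg (by linarith), Real.norm_of_nonneg (by positivity)] at hL
    exact hL
  have h5 : ∀ᶠ L : ℝ in Filter.atTop, (|D| + 2) / (ζ / 4) ≤ L ^ (1 / 2 : ℝ) :=
    (tendsto_rpow_atTop (show (0 : ℝ) < 1 / 2 by norm_num)).eventually_ge_atTop _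
  have h6 := (h1.and (h2.and (h3.and (h4.and h5))))
  obtain ⟨L₀, hL₀⟩ := Filter.eventually_atTop.mp h6
  refine ⟨L₀, fun L hL => ?_⟩
  obtain ⟨a1, a2, a3, a4, a5⟩ := hL₀ L hL
  refine ⟨a1, a2, ?_, ?_⟩
  · rw [div_le_iff₀ (by positivity)] at a3
    linarith
  · have hL0 : (0 : ℝ) < L := by linarith
    rw [div_le_iff₀ (by positivity)] at a5
    have hone : (1 : ℝ) ≤ L ^ (1 / 4 : ℝ) := Real.one_le_rpow a1 (by norm_num)
    have hD : D + 2 * Real.log L ≤ (|D| + 2) * L ^ (1 / 4 : ℝ) := by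
      have : D ≤ |D| * L ^ (1 / 4 : ℝ) := by
        have h7 : D ≤ |D| := le_abs_self D
        nlinarith [abs_nonneg D]
      nlinarith
    have hq : L ^ (1 / 4 : ℝ) * L ^ (1 / 4 : ℝ) = L ^ (1 / 2 : ℝ) := by
      rw [← Real.rpow_add hL0]; norm_num
    have hh : L ^ (1 / 2 : ℝ) * L ^ (1 / 2 : ℝ) = L := by
      rw [← Real.rpow_add hL0]; norm_num
    have hpos : 0 < L ^ (1 / 4 : ℝ) := by positivity
    have hpos2 : 0 < L ^ (1 / 2 : ℝ) := by positivity
    calc L ^ (1 / 4 : ℝ) * (D + 2 * Real.log L)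
        ≤ L ^ (1 / 4 : ℝ) * ((|D| + 2) * L ^ (1 / 4 : ℝ)) :=
          mul_le_mul_of_nonneg_left hD hpos.le
      _ = (|D| + 2) * L ^ (1 / 2 : ℝ) := by rw [← hq]; ring
      _ ≤ (L ^ (1 / 2 : ℝ) * (ζ / 4)) * L ^ (1 / 2 : ℝ) :=
          mul_le_mul_of_nonneg_right a5 hpos2.le
      _ = ζ / 4 * (L ^ (1 / 2 : ℝ) * L ^ (1 / 2 : ℝ)) := by ring
      _ = ζ / 4 * L := by rw [hh]

open Classical in
theorem countS : CountS := by
  intro K τ ζ hτ hζ
  set B : ℝ := Real.log (2 * ((K : ℝ) + 1)) + 1 with hB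
  have hK0 : (0 : ℝ) ≤ K := Nat.cast_nonneg K
  have hlog2K : 0 ≤ Real.log (2 * ((K : ℝ) + 1)) := Real.log_nonneg (by linarith)
  have hBpos : 0 < B := by rw [hB]; linarith
  set D : ℝ := Real.log (2 * (2 * K + 2 * τ + 1)) with hD
  obtain ⟨L₀, hL₀⟩ := eventually_params ζ D hζ
  refine ⟨min 1 (min (1 / (4 * τ)) (ζ / (16 * B))), ⌈Real.exp L₀⌉₊ + 1, ?_, ?_⟩
  · refine lt_min one_pos (lt_min (by positivity) (by positivity))
  intro N n lam hN hlam hW Y b h0
  set δ : ℝ := min 1 (min (1 / (4 * τ)) (ζ / (16 * B))) with hδ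
  have hδ1 : δ ≤ 1 := min_le_left _ _
  have hδ2 : δ ≤ 1 / (4 * τ) := (min_le_right _ _).trans (min_le_left _ _)
  have hδ3 : δ ≤ ζ / (16 * B) := (min_le_right _ _).trans (min_le_right _ _)
  have hδpos : 0 < δ := lt_min one_pos (lt_min (by positivity) (by positivity))
  have hNL : L₀ ≤ Real.log N := by
    have h1 : Real.exp L₀ ≤ (N : ℝ) := by
      have h2 : Real.exp L₀ ≤ (⌈Real.exp L₀⌉₊ : ℝ) := Nat.le_ceil _
      have h3 : ((⌈Real.exp L₀⌉₊ + 1 : ℕ) : ℝ) ≤ (N : ℝ) := by exact_mod_cast hN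
      push_cast at h3
      linarith
    rw [← Real.log_exp L₀]
    exact Real.log_le_log (Real.exp_pos _) h1
  have hNpos : (0 : ℝ) < N := by
    have : 0 < N := by omega
    exact_mod_cast this
  obtain ⟨hL1, hLa1, hl2, hsm⟩ := hL₀ (Real.log N) hNL
  set L : ℝ := Real.log N with hLdef
  set La : ℝ := Real.log L with hLadef
  set Γ : ℝ := Wt n lam with hΓ
  have hLpos : 0 < L := by linarith
  have hLapos : 0 < La := by linarith
  have hLaL : La ≤ L := by
    rw [hLadef]
    have := Real.log_le_sub_one_of_pos hLpos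
    linarith
  -- each active prime
  have hterm : ∀ q ∈ act n lam, (lam q : ℝ) * Real.log q ≤ Γ := by
    intro q hq
    rw [hΓ]
    unfold Wt
    have hq' : q ∈ (range n).filter (fun q => q.Prime ∧ lam q ≠ 0) := hq
    rw [mem_filter] at hq'
    refine single_le_sum (f := fun q : ℕ => (lam q : ℝ) * Real.log q) ?_
      (mem_filter.mpr ⟨hq'.1, hq'.2.1⟩)
    intro i _
    exact mul_nonneg (Nat.cast_nonneg _) (Real.log_natCast_nonneg _)
  have hΓ0 : 0 ≤ Γ := by
    rw [hΓ]
    exact sum_nonneg fun i _ => mul_nonneg (Nat.cast_nonneg _) (Real.log_natCast_nonneg _)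
  have hΓle : Γ ≤ δ * (L * La) := hW.le
  have hΓle1 : Γ ≤ L * La := by
    refine hΓle.trans ?_
    have : 0 ≤ L * La := by positivity
    nlinarith
  have hlog2 : (1 / 2 : ℝ) ≤ Real.log 2 := by linarith [Real.log_two_gt_d9]
  -- the bound for one prime
  have key : ∀ q ∈ act n lam, 0 < (Ures K τ L Γ lam q : ℝ) ∧
      Real.log (2 * (Ures K τ L Γ lam q : ℝ)) ≤
        B * (4 / La) * ((lam q : ℝ) * Real.log q) +
          (if (q : ℝ) ≤ L ^ (1 / 4 : ℝ) then D + 2 * La else 0) := by
    intro q hq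
    have hq' : q ∈ (range n).filter (fun q => q.Prime ∧ lam q ≠ 0) := hq
    rw [mem_filter] at hq'
    obtain ⟨_, hqp, hlq⟩ := hq'
    have hq2 : (2 : ℝ) ≤ q := by exact_mod_cast hqp.two_le
    have hlogq : (1 / 2 : ℝ) ≤ Real.log q :=
      hlog2.trans (Real.log_le_log (by norm_num) hq2)
    have hlam1 : (1 : ℝ) ≤ lam q := by
      have : 1 ≤ lam q := Nat.one_le_iff_ne_zero.mpr hlq
      exact_mod_cast this
    have hU : Ures K τ L Γ lam q = K * lam q + ⌈τ * Γ / (L * Real.log q)⌉₊ := by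
      unfold Ures
      rw [if_neg hlq]
    have hΓq := hterm q hq
    have hΓpos : 0 < Γ := by nlinarith
    have hLq : 0 < L * Real.log q := by positivity
    have hceil : 0 < ⌈τ * Γ / (L * Real.log q)⌉₊ := Nat.ceil_pos.mpr (by positivity)
    have hUpos : 0 < (Ures K τ L Γ lam q : ℝ) := by
      rw [hU]
      have : 0 < K * lam q + ⌈τ * Γ / (L * Real.log q)⌉₊ := by omega
      exact_mod_cast this
    have hceil2 : (⌈τ * Γ / (L * Real.log q)⌉₊ : ℝ) < τ * Γ / (L * Real.log q) + 1 :=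
      Nat.ceil_lt_add_one (by positivity)
    refine ⟨hUpos, ?_⟩
    by_cases hcase : (q : ℝ) ≤ L ^ (1 / 4 : ℝ)
    · rw [if_pos hcase]
      have h1 : τ * Γ / (L * Real.log q) ≤ 2 * τ * La := by
        rw [div_le_iff₀ hLq]
        have h3 : τ * Γ ≤ τ * (L * La) := mul_le_mul_of_nonneg_left hΓle1 hτ.le
        have h4 : 2 * τ * La * (L * (1 / 2)) ≤ 2 * τ * La * (L * Real.log q) :=
          mul_le_mul_of_nonneg_left (mul_le_mul_of_nonneg_left hlogq hLpos.le) (by positivity)
        nlinarith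
      have h2 : (lam q : ℝ) ≤ 2 * (L * La) := by nlinarith
      have hLaL2 : La ≤ L ^ 2 := by nlinarith
      have hLL : L * La ≤ L ^ 2 := by nlinarith
      have h1L : (1 : ℝ) ≤ L ^ 2 := by nlinarith
      have h5 : (Ures K τ L Γ lam q : ℝ) ≤ (2 * K + 2 * τ + 1) * L ^ 2 := by
        rw [hU]
        push_cast
        have h6 : (K : ℝ) * lam q ≤ K * (2 * L ^ 2) :=
          mul_le_mul_of_nonneg_left (by linarith) hK0
        have h7 : 2 * τ * La ≤ 2 * τ * L ^ 2 :=
          mul_le_mul_of_nonneg_left hLaL2 (by positivity)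
        nlinarith
      have h6 : Real.log (2 * (Ures K τ L Γ lam q : ℝ)) ≤ D + 2 * La := by
        have h7 : 2 * (Ures K τ L Γ lam q : ℝ) ≤ (2 * (2 * K + 2 * τ + 1)) * L ^ 2 := by
          linarith
        refine (Real.log_le_log (by positivity) h7).trans ?_
        rw [Real.log_mul (by positivity) (by positivity), Real.log_pow]
        push_cast
        exact le_rfl
      have h8 : 0 ≤ B * (4 / La) * ((lam q : ℝ) * Real.log q) := by positivity
      linarith
    · rw [if_neg hcase, add_zero]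
      have hq4 : L ^ (1 / 4 : ℝ) < q := not_le.mp hcase
      have hlq4 : La / 4 ≤ Real.log q := by
        have h1 := Real.log_le_log (by positivity) hq4.le
        rw [Real.log_rpow hLpos] at h1
        rw [hLadef]
        linarith
      have h1 : τ * Γ / (L * Real.log q) ≤ 1 := by
        rw [div_le_iff₀ hLq, one_mul]
        have h3 : τ * Γ ≤ τ * (δ * (L * La)) := mul_le_mul_of_nonneg_left hΓle hτ.le
        have h4 : τ * δ ≤ 1 / 4 := by
          have := mul_le_mul_of_nonneg_left hδ2 hτ.le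
          have h5 : τ * (1 / (4 * τ)) = 1 / 4 := by field_simp
          linarith
        have h6 : τ * (δ * (L * La)) ≤ 1 / 4 * (L * La) := by
          have : τ * (δ * (L * La)) = (τ * δ) * (L * La) := by ring
          rw [this]
          exact mul_le_mul_of_nonneg_right h4 (by positivity)
        have h7 : L * (La / 4) ≤ L * Real.log q := mul_le_mul_of_nonneg_left hlq4 hLpos.le
        nlinarith
      have hc1 : (⌈τ * Γ / (L * Real.log q)⌉₊ : ℝ) ≤ 1 := by
        have : ⌈τ * Γ / (L * Real.log q)⌉₊ ≤ 1 := Nat.ceil_le.mpr (by exact_mod_cast h1)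
        exact_mod_cast this
      have h2 : (Ures K τ L Γ lam q : ℝ) ≤ (K + 1) * lam q := by
        rw [hU]
        push_cast
        nlinarith
      have h3 : Real.log (2 * (Ures K τ L Γ lam q : ℝ)) ≤ B * lam q := by
        have h4 : 2 * (Ures K τ L Γ lam q : ℝ) ≤ (2 * (K + 1)) * lam q := by linarith
        refine (Real.log_le_log (by positivity) h4).trans ?_
        rw [Real.log_mul (by positivity) (by positivity)]
        have h5 := Real.log_le_sub_one_of_pos (show (0 : ℝ) < lam q by linarith)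
        rw [hB]
        nlinarith
      refine h3.trans ?_
      have h4 : (1 : ℝ) ≤ 4 / La * Real.log q := by
        rw [div_mul_eq_mul_div, le_div_iff₀ hLapos]
        linarith
      have h5 : B * (lam q : ℝ) * 1 ≤ B * (lam q : ℝ) * (4 / La * Real.log q) :=
        mul_le_mul_of_nonneg_left h4 (by positivity)
      calc B * (lam q : ℝ) = B * (lam q : ℝ) * 1 := by ring
        _ ≤ B * (lam q : ℝ) * (4 / La * Real.log q) := h5
        _ = B * (4 / La) * ((lam q : ℝ) * Real.log q) := by ring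
  -- the sum
  have hsum : ∑ q ∈ act n lam, Real.log (2 * (Ures K τ L Γ lam q : ℝ)) ≤
      ζ / 4 * L + ζ / 4 * L := by
    refine (sum_le_sum fun q hq => (key q hq).2).trans ?_
    rw [sum_add_distrib, ← mul_sum]
    refine add_le_add ?_ ?_
    · have h1 : ∑ q ∈ act n lam, (lam q : ℝ) * Real.log q ≤ Γ := by
        rw [hΓ]
        unfold Wt
        refine sum_le_sum_of_subset_of_nonneg ?_ ?_
        · intro q hq
          have hq' : q ∈ (range n).filter (fun q => q.Prime ∧ lam q ≠ 0) := hq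
          rw [mem_filter] at hq'
          exact mem_filter.mpr ⟨hq'.1, hq'.2.1⟩
        · intro i _ _
          exact mul_nonneg (Nat.cast_nonneg _) (Real.log_natCast_nonneg _)
      have h2 : B * (4 / La) * ∑ q ∈ act n lam, (lam q : ℝ) * Real.log q ≤
          B * (4 / La) * (δ * (L * La)) :=
        mul_le_mul_of_nonneg_left (h1.trans hΓle) (by positivity)
      have h3 : B * (4 / La) * (δ * (L * La)) = 4 * B * δ * L := by
        field_simp
      have h4 : 4 * B * δ * L ≤ 4 * B * (ζ / (16 * B)) * L :=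
        mul_le_mul_of_nonneg_right (mul_le_mul_of_nonneg_left hδ3 (by positivity)) hLpos.le
      have h5 : 4 * B * (ζ / (16 * B)) * L = ζ / 4 * L := by
        field_simp
        ring
      linarith
    · rw [← sum_filter, sum_const, nsmul_eq_mul]
      have hD0 : 0 ≤ D := by
        rw [hD]
        exact Real.log_nonneg (by linarith)
      have hcard : (((act n lam).filter (fun q : ℕ => (q : ℝ) ≤ L ^ (1 / 4 : ℝ))).card : ℝ) ≤
          L ^ (1 / 4 : ℝ) := by
        have hs : (act n lam).filter (fun q : ℕ => (q : ℝ) ≤ L ^ (1 / 4 : ℝ)) ⊆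
            Icc 1 ⌊L ^ (1 / 4 : ℝ)⌋₊ := by
          intro q hq
          rw [mem_filter] at hq
          have hq' : q ∈ (range n).filter (fun q => q.Prime ∧ lam q ≠ 0) := hq.1
          rw [mem_filter] at hq'
          rw [mem_Icc]
          exact ⟨hq'.2.1.one_lt.le, Nat.le_floor hq.2⟩
        have h1 := card_le_card hs
        rw [Nat.card_Icc, Nat.add_sub_cancel] at h1
        calc (((act n lam).filter (fun q : ℕ => (q : ℝ) ≤ L ^ (1 / 4 : ℝ))).card : ℝ)
            ≤ (⌊L ^ (1 / 4 : ℝ)⌋₊ : ℝ) := by exact_mod_cast h1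
          _ ≤ L ^ (1 / 4 : ℝ) := Nat.floor_le (by positivity)
      exact (mul_le_mul_of_nonneg_right hcard (by positivity)).trans hsm
  -- conclusion
  have hc := card_close_le (Ures K τ L Γ lam) n lam hlam
    (fun q hq => by unfold Ures; rw [if_pos hq]) Y b h0
  have hprod : ((2 * ∏ q ∈ act n lam, (2 * Ures K τ L Γ lam q) : ℕ) : ℝ) =
      Real.exp (Real.log 2 + ∑ q ∈ act n lam, Real.log (2 * (Ures K τ L Γ lam q : ℝ))) := by
    rw [Real.exp_add, Real.exp_log (by norm_num), Real.exp_sum]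
    push_cast
    congr 1
    refine prod_congr rfl fun q hq => ?_
    rw [Real.exp_log]
    have := (key q hq).1
    positivity
  have hfin : (((Y.filter (fun b' => Close (Ures K τ L Γ lam) b b')).card : ℕ) : ℝ) ≤
      Real.exp (ζ * L) := by
    calc (((Y.filter (fun b' => Close (Ures K τ L Γ lam) b b')).card : ℕ) : ℝ)
        ≤ ((2 * ∏ q ∈ act n lam, (2 * Ures K τ L Γ lam q) : ℕ) : ℝ) := by exact_mod_cast hc
      _ = _ := hprod
      _ ≤ Real.exp (ζ * L) := by
          apply Real.exp_le_exp.mpr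
          nlinarith
  rw [Real.rpow_def_of_pos hNpos]
  rw [mul_comm (Real.log N) ζ]
  exact hfin

end Pool.Agent.Helper66.TR
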